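import Pool.Agent.H63.PU.Targets

/-!
# Module LOCLO (MP_6ed97a_co): find the value above a missing edge
-/

namespace Pool.Agent.H12.PU

open Pool.Agent.H63.PU

theorem mem_locLo_gap (e : ℕ) (k : Kd) (L₂ : List Item) : ∀ L₁ : List Item,
    L₁ ++ Item.gap :: Item.tok k e 0 :: Item.gap :: L₂ ∈ locLo e (L₁ ++ Item.gap :: L₂)
  | [] => by
    cases k <;> simp [locLo]
  | .gap :: L₁ => by
    have h := mem_locLo_gap e k L₂ L₁
    simp only [List.cons_append, locLo, List.mem_cons, List.mem_map]
    exact Or.inr (Or.inr (Or.inr ⟨_, h, rfl⟩))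
  | .tok k' lo hi :: L₁ => by
    have h := mem_locLo_gap e k L₂ L₁
    simp only [List.cons_append, locLo]
    cases hb : Nat.beq lo 0
    · simp only [cond_false, List.mem_map]
      exact ⟨_, h, rfl⟩
    · simp only [cond_true, List.mem_cons, List.mem_map]
      exact Or.inr ⟨_, h, rfl⟩

theorem mem_locLo_tok (e : ℕ) (k : Kd) (hi : ℕ) (L₂ : List Item) : ∀ L₁ : List Item,
    L₁ ++ Item.tok k e hi :: L₂ ∈ locLo e (L₁ ++ Item.tok k 0 hi :: L₂)
  | [] => by
    simp [locLo]
  | .gap :: L₁ => by
    have h := mem_locLo_tok e k hi L₂ L₁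
    simp only [List.cons_append, locLo, List.mem_cons, List.mem_map]
    exact Or.inr (Or.inr (Or.inr ⟨_, h, rfl⟩))
  | .tok k' lo hi' :: L₁ => by
    have h := mem_locLo_tok e k hi L₂ L₁
    simp only [List.cons_append, locLo]
    cases hb : Nat.beq lo 0
    · simp only [cond_false, List.mem_map]
      exact ⟨_, h, rfl⟩
    · simp only [cond_true, List.mem_cons, List.mem_map]
      exact Or.inr ⟨_, h, rfl⟩

/-- two lower labels of the same token have the same value -/
theorem tok_lo_unique {n : ℕ} {val : ℕ → ℕ} {k : Kd} {lo e hi : ℕ} {l : List ℕ}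
    (h₁ : Tok n val k lo hi l) (h₂ : Tok n val k e hi l) (hlo : lo ≠ 0) (he : e ≠ 0) :
    nx n (val lo) = nx n (val e) := by
  cases k
  · obtain ⟨v, hv, ha, -⟩ := h₁
    obtain ⟨w, hw, hb, -⟩ := h₂
    have : v = w := by
      rw [hv] at hw
      simpa using hw
    rw [← ha hlo, ← hb he, this]
  · obtain ⟨-, ha, -⟩ := h₁
    obtain ⟨-, hb, -⟩ := h₂
    have h := (ha hlo).symm.trans (hb he)
    simpa using h
  · obtain ⟨-, ha, -⟩ := h₁
    obtain ⟨-, hb, -⟩ := h₂
    have h := (ha hlo).symm.trans (hb he)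
    simpa using h

theorem loclo (hEXT : T_EXT) (hEND : T_END) (hNX : T_NX) : T_LOCLO := by
  intro n val e R a hn hp hR he hE hlab
  obtain ⟨hv1, hflat, hcl, hit⟩ := hR
  have hve := hv1 e
  have hz : nx n (val e) ∈ a := by
    have h := hNX.1 n (val e) hve.1 hve.2
    rw [hp.mem_iff, List.mem_range'_1]
    omega
  have hz' := hz
  rw [← hflat, List.mem_flatten] at hz'
  obtain ⟨l, hl, hzl⟩ := hz'
  rw [List.mem_map] at hl
  obtain ⟨⟨it, l'⟩, hx, hl'⟩ := hl
  simp only at hl'
  subst hl'
  obtain ⟨R₁, R₂, rfl⟩ := List.append_of_mem hx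
  set P : List ℕ := (R₁.map Prod.snd).flatten with hP
  set Q : List ℕ := (R₂.map Prod.snd).flatten with hQ
  have ha : a = P ++ l' ++ Q := by
    rw [← hflat]
    simp [hP, hQ, List.append_assoc]
  cases it with
  | gap =>
    have hcl' := hcl _ hx
    simp only at hcl'
    rw [ha] at hp hcl'
    obtain ⟨g₁, Y, g₂, k, hlY, hzY, hTok, hc1, hc2, hc3⟩ := hEXT n P l' Q (nx n (val e)) hn hp hcl' hzl
    have haY : a = (P ++ g₁) ++ Y ++ (g₂ ++ Q) := by
      rw [ha, hlY]
      simp [List.append_assoc]
    have hT := (hEND n a val k 0 0 (P ++ g₁) Y (g₂ ++ Q) (val e) hn haY (ha ▸ hp) hve.1 hve.2 hE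
      (hTok val) val e rfl (fun h => absurd rfl h) (fun h => absurd rfl h)).1 hzY
    refine ⟨R₁.map Prod.fst ++ Item.gap :: Item.tok k e 0 :: Item.gap :: R₂.map Prod.fst, ?_, ?_⟩
    · have h := mem_locLo_gap e k (R₂.map Prod.fst) (R₁.map Prod.fst)
      simpa using h
    · refine ⟨val, R₁ ++ (Item.gap, g₁) :: (Item.tok k e 0, Y) :: (Item.gap, g₂) :: R₂, by simp,
        hv1, ?_, ?_, ?_⟩
      · rw [haY]
        simp [hP, hQ, List.append_assoc]
      · intro x hx'
        simp only [List.mem_append, List.mem_cons] at hx'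
        rcases hx' with h | rfl | rfl | rfl | h
        · exact hcl x (by simp [h])
        · rw [ha]; exact hc1
        · rw [ha]; exact hc2
        · rw [ha]; exact hc3
        · exact hcl x (by simp [h])
      · intro x hx'
        simp only [List.mem_append, List.mem_cons] at hx'
        rcases hx' with h | rfl | rfl | rfl | h
        · exact hit x (by simp [h])
        · exact trivial
        · exact hT
        · exact trivial
        · exact hit x (by simp [h])
  | tok k lo hi =>
    have hT0 : Tok n val k lo hi l' := hit _ hx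
    have hT := (hEND n a val k lo hi P l' Q (val e) hn ha hp hve.1 hve.2 hE hT0 val e rfl
      (fun _ => rfl) (fun _ => rfl)).1 hzl
    have hlo : lo = 0 := by
      by_contra hlo
      have h := tok_lo_unique hT0 hT hlo he
      have h2 := hNX.2.1 n (val lo) (val e) (hv1 lo).1 (hv1 lo).2 hve.1 hve.2 h
      exact hlab k lo hi l' hx hlo h2
    subst hlo
    refine ⟨R₁.map Prod.fst ++ Item.tok k e hi :: R₂.map Prod.fst, ?_, ?_⟩
    · have h := mem_locLo_tok e k hi (R₂.map Prod.fst) (R₁.map Prod.fst)
      simpa using h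
    · refine ⟨val, R₁ ++ (Item.tok k e hi, l') :: R₂, by simp, hv1, ?_, ?_, ?_⟩
      · rw [ha]
        simp [hP, hQ, List.append_assoc]
      · intro x hx'
        simp only [List.mem_append, List.mem_cons] at hx'
        rcases hx' with h | rfl | h
        · exact hcl x (by simp [h])
        · exact hcl (Item.tok k 0 hi, l') hx
        · exact hcl x (by simp [h])
      · intro x hx'
        simp only [List.mem_append, List.mem_cons] at hx'
        rcases hx' with h | rfl | h
        · exact hit x (by simp [h])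
        · exact hT
        · exact hit x (by simp [h])

end Pool.Agent.H12.PU
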