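import Pool.Agent.H63.PU.Targets

/-!
# Module QHI (MP_6ed97a_co): queries of type `hi`
-/

namespace Pool.Agent.H12.PU

open Pool.Agent.H63.PU

theorem fresh_pos : ∀ is : List Item, 1 ≤ fresh is
  | [] => le_refl _
  | .gap :: l => by simpa [fresh] using fresh_pos l
  | .tok k lo hi :: l => by
    simp only [fresh]
    exact le_trans (fresh_pos l) (le_max_right _ _)

theorem lt_fresh {k : Kd} {lo hi : ℕ} : ∀ is : List Item, Item.tok k lo hi ∈ is →
    lo < fresh is ∧ hi < fresh is
  | [], h => by simp at h
  | .gap :: l, h => by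
    simp only [List.mem_cons, reduceCtorEq, false_or] at h
    simpa [fresh] using lt_fresh l h
  | .tok k' lo' hi' :: l, h => by
    simp only [List.mem_cons] at h
    have e : fresh (Item.tok k' lo' hi' :: l) = max (max (lo' + 1) (hi' + 1)) (fresh l) := rfl
    rw [e]
    rcases h with h | h
    · injection h with h1 h2 h3
      subst h2 h3
      omega
    · have := lt_fresh l h
      omega

theorem itemR_congr {n : ℕ} {val val' : ℕ → ℕ} {it : Item} {l : List ℕ}
    (h : ItemR n val it l)
    (hc : ∀ k lo hi, it = Item.tok k lo hi → val' lo = val lo ∧ val' hi = val hi) :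
    ItemR n val' it l := by
  cases it with
  | gap => trivial
  | tok k lo hi =>
    obtain ⟨h1, h2⟩ := hc k lo hi rfl
    cases k
    · obtain ⟨v, hv, ha, hb⟩ := h
      refine ⟨v, hv, ?_, ?_⟩
      · rw [h1]; exact ha
      · rw [h2]; exact hb
    · obtain ⟨hu, ha, hb⟩ := h
      refine ⟨hu, ?_, ?_⟩
      · rw [h1]; exact ha
      · rw [h2]; exact hb
    · obtain ⟨hu, ha, hb⟩ := h
      refine ⟨hu, ?_, ?_⟩
      · rw [h1]; exact ha
      · rw [h2]; exact hb

theorem exclLo_spec {is : List Item} : ∀ {js : List Item}, exclLo is js = true →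
    ∀ {k lo hi}, Item.tok k lo hi ∈ js → lo ≠ 0 → hasHi lo is = true
  | [], _, _, _, _, h, _ => by simp at h
  | .gap :: l, he, k, lo, hi, h, hlo => by
    simp only [List.mem_cons, reduceCtorEq, false_or] at h
    exact exclLo_spec (js := l) (by simpa [exclLo] using he) h hlo
  | .tok k' lo' hi' :: l, he, k, lo, hi, h, hlo => by
    simp only [exclLo, Bool.and_eq_true, Bool.or_eq_true] at he
    simp only [List.mem_cons] at h
    rcases h with h | h
    · injection h with h1 h2 h3
      subst h2
      rcases he.1 with h4 | h4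
      · exact absurd (Nat.eq_of_beq_eq_true h4) hlo
      · exact h4
    · exact exclLo_spec (js := l) he.2 h hlo

theorem hasHi_spec {e : ℕ} : ∀ {js : List Item}, hasHi e js = true →
    ∃ k lo, Item.tok k lo e ∈ js
  | [], h => by simp [hasHi] at h
  | .gap :: l, h => by
    obtain ⟨k, lo, h'⟩ := hasHi_spec (js := l) (by simpa [hasHi] using h)
    exact ⟨k, lo, List.mem_cons_of_mem _ h'⟩
  | .tok k' lo' hi' :: l, h => by
    simp only [hasHi, Bool.or_eq_true] at h
    rcases h with h | h
    · have h' := Nat.eq_of_beq_eq_true h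
      subst h'
      exact ⟨k', lo', by simp⟩
    · obtain ⟨k, lo, h'⟩ := hasHi_spec (js := l) h
      exact ⟨k, lo, List.mem_cons_of_mem _ h'⟩

/-- the value of an upper label lies in the token -/
theorem tok_hi_mem {n : ℕ} {val : ℕ → ℕ} {k : Kd} {lo hi : ℕ} {l : List ℕ}
    (h : Tok n val k lo hi l) (hhi : hi ≠ 0) : val hi ∈ l := by
  cases k
  · obtain ⟨v, hv, -, hb⟩ := h
    rw [hv, ← hb hhi]
    simp
  · obtain ⟨-, -, hb⟩ := h
    exact List.mem_of_getLast? (hb hhi)
  · obtain ⟨-, -, hb⟩ := h
    exact List.mem_of_mem_head? (hb hhi)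

theorem qhi (hOUT : T_OUT) (hLOC : T_LOCLO) : T_QHI := by
  intro n a i is L hn hp hreal hans
  obtain ⟨val, R, hRis, hR⟩ := hreal
  obtain ⟨hv1, hflat, hcl, hit⟩ := hR
  -- the token at index `i`
  have hex : ∃ k lo, is[i]? = some (Item.tok k lo 0) ∧ exclLo is is = true ∧
      L = locLo (fresh is) (is.set i (Item.tok k lo (fresh is))) := by
    unfold answers at hans
    simp only at hans
    split at hans
    · rename_i k lo heq
      cases hx : exclLo is is
      · rw [hx] at hans
        simp at hans
      · rw [hx] at hans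
        simp only [cond_true, Option.some.injEq] at hans
        exact ⟨k, lo, heq, rfl, hans.symm⟩
    · simp at hans
  obtain ⟨k, lo, hi0, hexcl, rfl⟩ := hex
  rw [← hRis, List.getElem?_map] at hi0
  rw [Option.map_eq_some_iff] at hi0
  obtain ⟨⟨it, lX⟩, hRi, hit0⟩ := hi0
  simp only at hit0
  subst hit0
  obtain ⟨hilt, hRi'⟩ := List.getElem?_eq_some_iff.1 hRi
  obtain ⟨R₁, R₂, hRR, hlen⟩ : ∃ R₁ R₂, R = R₁ ++ (Item.tok k lo 0, lX) :: R₂ ∧ R₁.length = i := by
    refine ⟨R.take i, R.drop (i + 1), ?_, ?_⟩
    · conv_lhs => rw [← List.take_append_drop i R]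
      rw [List.drop_eq_getElem_cons hilt, hRi']
    · rw [List.length_take]
      omega
  have hx : (Item.tok k lo 0, lX) ∈ R := by
    rw [hRR]; simp
  set P : List ℕ := (R₁.map Prod.snd).flatten with hP
  set Q : List ℕ := (R₂.map Prod.snd).flatten with hQ
  have ha : a = P ++ lX ++ Q := by
    rw [← hflat, hRR]
    simp [hP, hQ, List.append_assoc]
  obtain ⟨⟨y, hy1, hyn, hyX, hyE, hyT⟩, -⟩ :=
    hOUT n a val k lo 0 P lX Q hn ha hp (hcl _ hx) (hit _ hx)
  set N : ℕ := fresh is with hN
  have hN1 : 1 ≤ N := fresh_pos is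
  set val' : ℕ → ℕ := Function.update val N y with hval'
  have hval_lt : ∀ m, m < N → val' m = val m := fun m hm => by
    rw [hval', Function.update_of_ne (by omega)]
  have hvalN : val' N = y := by rw [hval', Function.update_self]
  have hlabel : ∀ k' lo' hi' l', (Item.tok k' lo' hi', l') ∈ R → lo' < N ∧ hi' < N := by
    intro k' lo' hi' l' h
    apply lt_fresh (k := k')
    rw [← hRis]
    exact List.mem_map.2 ⟨_, h, rfl⟩
  have hTX : Tok n val' k lo N lX := by
    apply hyT val' N hvalN
    intro _
    exact hval_lt lo (hlabel _ _ _ _ hx).1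
  -- the new parts
  set R' : List (Item × List ℕ) := R₁ ++ (Item.tok k lo N, lX) :: R₂ with hR'
  have hR'is : R'.map Prod.fst = is.set i (Item.tok k lo N) := by
    rw [← hRis, hRR, hR']
    simp only [List.map_append, List.map_cons]
    rw [List.set_append_right _ _ (by simp [hlen])]
    simp [hlen]
  have hRW : RealW n a val' R' := by
    refine ⟨?_, ?_, ?_, ?_⟩
    · intro m
      by_cases hm : m = N
      · rw [hm, hvalN]; exact ⟨hy1, hyn⟩
      · rw [hval', Function.update_of_ne hm]; exact hv1 m
    · rw [ha, hR']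
      simp [hP, hQ, List.append_assoc]
    · intro x hx'
      rw [hR'] at hx'
      simp only [List.mem_append, List.mem_cons] at hx'
      rcases hx' with h | rfl | h
      · exact hcl x (by rw [hRR]; simp [h])
      · exact hcl (Item.tok k lo 0, lX) hx
      · exact hcl x (by rw [hRR]; simp [h])
    · intro x hx'
      rw [hR'] at hx'
      simp only [List.mem_append, List.mem_cons] at hx'
      have key : x ∈ R → ItemR n val' x.1 x.2 := fun hxR => by
        refine itemR_congr (hit x hxR) ?_
        intro k' lo' hi' hx1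
        have := hlabel k' lo' hi' x.2 (by rw [← hx1]; exact hxR)
        exact ⟨hval_lt _ this.1, hval_lt _ this.2⟩
      rcases hx' with h | rfl | h
      · exact key (by rw [hRR]; simp [h])
      · exact hTX
      · exact key (by rw [hRR]; simp [h])
  have hmain := hLOC n val' N R' a hn hp hRW (by omega) (by rw [hvalN]; exact hyE) ?_
  · rw [hR'is] at hmain
    exact hmain
  · intro k' lo' hi' l' hmem hlo' heq
    rw [hvalN] at heq
    -- `lo'` is a label of `is`
    obtain ⟨k₂, hi₂, l₂, hmem₂⟩ : ∃ k₂ hi₂ l₂, (Item.tok k₂ lo' hi₂, l₂) ∈ R := by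
      rw [hR'] at hmem
      simp only [List.mem_append, List.mem_cons] at hmem
      rcases hmem with h | h | h
      · exact ⟨k', hi', l', by rw [hRR]; simp [h]⟩
      · injection h with h1 h2
        injection h1 with h3 h4 h5
        subst h4
        exact ⟨k, 0, lX, hx⟩
      · exact ⟨k', hi', l', by rw [hRR]; simp [h]⟩
    have hlt := (hlabel _ _ _ _ hmem₂).1
    rw [hval_lt _ hlt] at heq
    have hin : Item.tok k₂ lo' hi₂ ∈ is := by
      rw [← hRis]
      exact List.mem_map.2 ⟨_, hmem₂, rfl⟩
    obtain ⟨kw, low, hw⟩ := hasHi_spec (exclLo_spec hexcl hin hlo')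
    rw [← hRis, List.mem_map] at hw
    obtain ⟨⟨iw, lw⟩, hwR, hiw⟩ := hw
    simp only at hiw
    subst hiw
    have hyw : y ∈ lw := by
      rw [← heq]
      exact tok_hi_mem (hit _ hwR) hlo'
    have hnd : (P ++ lX ++ Q).Nodup := by
      rw [← ha]
      exact hp.nodup_iff.2 (List.nodup_range')
    rw [List.append_assoc, List.nodup_append] at hnd
    obtain ⟨-, hnd2, hdis1⟩ := hnd
    rw [List.nodup_append] at hnd2
    obtain ⟨-, -, hdis2⟩ := hnd2
    rw [hRR] at hwR
    simp only [List.mem_append, List.mem_cons] at hwR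
    rcases hwR with h | h | h
    · have : y ∈ P := by
        rw [hP, List.mem_flatten]
        exact ⟨lw, List.mem_map.2 ⟨_, h, rfl⟩, hyw⟩
      exact hdis1 y this y (by simp [hyX]) rfl
    · injection h with h1 h2
      injection h1 with h3 h4 h5
      exact hlo' h5
    · have : y ∈ Q := by
        rw [hQ, List.mem_flatten]
        exact ⟨lw, List.mem_map.2 ⟨_, h, rfl⟩, hyw⟩
      exact hdis2 y hyX y this rfl

end Pool.Agent.H12.PU
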